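import Pool.Agent.H24.FD.P4
import Pool.Agent.H82.FD.SPR

/-!
# MP_1f2761, k = 2: row LEVB (levels of a window are the levels of its blocks)
-/

set_option autoImplicit false

open Finset Pool.K2 Pool.FD

namespace Pool.Agent.H24.FD

namespace Levb45

/-- The levels of a window which are undecided after one more block. -/
theorem bad_le (hV : VALSStmt) (p l k W J : ℕ) (hp : 2 ≤ p) (x : ℕ × ℕ)
    (S : Fin k → Fin l → Fin 3) :
    bad p (W + l * k) J (app x S) ≤ bad p (l * k) J (app x S) + bad p W (J + l * k) x := by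
  classical
  unfold bad
  refine le_trans (card_le_card ?_) (card_union_le _ _)
  intro m hm
  rw [mem_filter, mem_range] at hm
  obtain ⟨hm1, hm2, hm3, hm4⟩ := hm
  rw [mem_union, mem_filter, mem_filter, mem_range, mem_range]
  have hmp : ∀ N : ℕ, p ^ m < 2 ^ N → m < N := fun N h =>
    (Nat.pow_lt_pow_iff_right (by norm_num : 1 < 2)).mp
      (lt_of_le_of_lt (Nat.pow_le_pow_left hp m) h)
  by_cases h : p ^ m < 2 ^ (J + l * k)
  · left
    have := hmp _ h
    exact ⟨by omega, hm2, h, hm4⟩
  · right
    have h3 := hmp _ hm3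
    refine ⟨by omega, by omega, ?_, ?_⟩
    · rw [show J + l * k + W = J + (W + l * k) by omega]
      exact hm3
    · intro hS
      apply hm4
      have h5 := spr p m J (l * k) x (VN S) (VA S) (by omega) (hV l k S).1 (hV l k S).2.1 hS
      exact h5

end Levb45

open Levb45 in
/-- LEVB. -/
theorem levb (hV : VALSStmt) (hN : PINStmt) (hE : EQBStmt) : LEVBStmt := by
  intro q l k n Jt p om hp hM hom
  obtain ⟨hc, hmono, hlin, htow, -⟩ := hE q l k eb om hM hom
  induction n with
  | zero =>
    intro _ x
    show ((bad p (l * k * 0) (Jt - l * k * 0) x : ℕ) : ℝ) ≤ _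
    have h0 : bad p (l * k * 0) (Jt - l * k * 0) x = 0 := by
      classical
      unfold bad
      rw [card_eq_zero, filter_eq_empty_iff]
      intro m _ hm
      rw [Nat.mul_zero, Nat.sub_zero, Nat.add_zero] at hm
      omega
    rw [h0]
    simp
  | succ n ih =>
    intro hJ x
    have hJ' : l * k * n + l * k ≤ Jt := by
      rw [Nat.mul_succ] at hJ
      exact hJ
    have e1 : Jt - l * k * n = Jt - l * k * (n + 1) + l * k := by
      rw [Nat.mul_succ]
      omega
    have hone : ∀ (J n : ℕ) (f g : ℕ × ℕ → ℝ) (x : ℕ × ℕ),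
        EQ q l k eb om J n (fun y => f y + g y) x =
          EQ q l k eb om J n f x + EQ q l k eb om J n g x := by
      intro J n f g x
      have := hlin n J f g 1 x
      simpa using this
    rw [htow n 1, sum_range_succ]
    have h1 : ∀ x' : ℕ × ℕ, EQ q l k eb om (Jt - l * k * n) 1
        (fun y => (bad p (l * k * (n + 1)) (Jt - l * k * (n + 1)) y : ℝ)) x' ≤
        (bad p (l * k * n) (Jt - l * k * n) x' : ℝ) + EQ q l k eb om (Jt - l * k * n) 1
          (fun y => (bad p (l * k) (Jt - l * k * (n + 1)) y : ℝ)) x' := by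
      intro x'
      have h2 : EQ q l k eb om (Jt - l * k * n) 1
          (fun _ => (bad p (l * k * n) (Jt - l * k * n) x' : ℝ)) x' =
          (bad p (l * k * n) (Jt - l * k * n) x' : ℝ) := hc 1 _ _ _
      rw [← h2, ← hone]
      show ∑ S : Fin k → Fin l → Fin 3, _ ≤ ∑ S : Fin k → Fin l → Fin 3, _
      refine sum_le_sum fun S _ => mul_le_mul_of_nonneg_left ?_ ?_
      · show ((bad p (l * k * (n + 1)) (Jt - l * k * (n + 1)) (app x' S) : ℕ) : ℝ) ≤
          ((bad p (l * k * n) (Jt - l * k * n) x' : ℕ) : ℝ) +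
            ((bad p (l * k) (Jt - l * k * (n + 1)) (app x' S) : ℕ) : ℝ)
        have h3 := bad_le hV p l k (l * k * n) (Jt - l * k * (n + 1)) hp x' S
        rw [← e1] at h3
        rw [Nat.mul_succ (l * k) n]
        rw [Nat.mul_succ (l * k) n] at h3
        have h4 := h3
        rw [Nat.add_comm (bad _ _ _ (app x' S))] at h4
        exact_mod_cast h4
      · exact hN q l k eb om hom _ _ _
    refine le_trans (hmono n Jt _ _ x h1) ?_
    rw [hone]
    have h5 := ih (by omega) x
    linarith

end Pool.Agent.H24.FD
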