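import Pool.Agent.H24.FD.P5

/-!
# MP_1f2761, k = 2: row ONN (the kernels are nonnegative)
-/

set_option autoImplicit false

open Finset

namespace Pool.Agent.H24.FD

/-- The bottom factor is nonnegative. -/
theorem gd_nonneg45 (q g A : ℕ) (hq : 2 ≤ q) : 0 ≤ gd q g A := by
  unfold gd
  split_ifs
  · exact le_rfl
  · have h1 : (1 : ℝ) ≤ (q : ℝ) ^ g := one_le_pow₀ (by exact_mod_cast (by omega : 1 ≤ q))
    have h2 : 1 / (q : ℝ) ^ g ≤ 1 := by
      rw [div_le_one (by linarith)]
      exact h1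
    exact div_nonneg zero_le_one (by linarith)

/-- ONN. -/
theorem onn : ONNStmt := by
  intro q m g t₁ w G Jt κ wm hq hg hM J z
  unfold omW
  split_ifs
  · exact zero_le_one
  · exact mul_nonneg (prod_nonneg fun i _ => hM.nonneg _ _) (gd_nonneg45 q g z.2 hq)

end Pool.Agent.H24.FD
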